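import Pool.Agent.TH240.Hig

/-!
# Restricted positive factorizations of the boundary twist have bounded length

Mapping class groups of a space `S` relative to a subset `B` (for a surface: its boundary),
positive Dehn twists, systems of curves meeting pairwise in at most `k` points.
-/

open Topology

namespace Pool.Agent.Results.MP_294da1_gt.FinitelyManyFactorizations

/-- The group of the homeomorphisms of `S` that fix every point of `B`. -/
def HomeoRel (S : Type) [TopologicalSpace S] (B : Set S) : Subgroup (S ≃ₜ S) where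
  carrier := {h | ∀ x ∈ B, h x = x}
  mul_mem' := by
    intro f g hf hg x hx
    rw [Homeomorph.mul_apply, hg x hx, hf x hx]
  one_mem' := fun _ _ => rfl
  inv_mem' := by
    intro f hf x hx
    rw [Homeomorph.inv_apply, Homeomorph.symm_apply_eq]
    exact (hf x hx).symm

variable {S : Type} [TopologicalSpace S] {B : Set S}

/-- `f` is isotopic to the identity through homeomorphisms that fix every point of `B`. -/
def IsotopicToId (B : Set S) (f : S ≃ₜ S) : Prop :=
  ∃ F : unitInterval → (S ≃ₜ S), (∀ t, F t ∈ HomeoRel S B) ∧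
    Continuous (fun p : unitInterval × S => F p.1 p.2) ∧
    Continuous (fun p : unitInterval × S => (F p.1).symm p.2) ∧ F 0 = 1 ∧ F 1 = f

/-- The subgroup of the homeomorphisms isotopic to the identity. -/
def Iso0 (S : Type) [TopologicalSpace S] (B : Set S) : Subgroup (HomeoRel S B) where
  carrier := {h | IsotopicToId B (h : S ≃ₜ S)}
  mul_mem' := by
    rintro f g ⟨F, F1, F2, F3, F4, F5⟩ ⟨G, G1, G2, G3, G4, G5⟩
    refine ⟨fun t => F t * G t, fun t => (HomeoRel S B).mul_mem (F1 t) (G1 t), ?_, ?_, ?_, ?_⟩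
    · exact F2.comp (continuous_fst.prodMk G2)
    · exact G3.comp (continuous_fst.prodMk F3)
    · show F 0 * G 0 = 1
      rw [F4, G4, one_mul]
    · show F 1 * G 1 = _
      rw [F5, G5]
      rfl
  one_mem' := ⟨fun _ => 1, fun _ => (HomeoRel S B).one_mem, continuous_snd, continuous_snd,
    rfl, rfl⟩
  inv_mem' := by
    rintro f ⟨F, F1, F2, F3, F4, F5⟩
    refine ⟨fun t => (F t)⁻¹, fun t => (HomeoRel S B).inv_mem (F1 t), F3, F2, ?_, ?_⟩
    · show (F 0)⁻¹ = 1
      rw [F4, inv_one]
    · show (F 1)⁻¹ = _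
      rw [F5]
      rfl

instance : (Iso0 S B).Normal where
  conj_mem := by
    rintro f ⟨F, F1, F2, F3, F4, F5⟩ h
    refine ⟨fun t => (h : S ≃ₜ S) * F t * (h : S ≃ₜ S)⁻¹, fun t =>
      (HomeoRel S B).mul_mem ((HomeoRel S B).mul_mem h.2 (F1 t)) ((HomeoRel S B).inv_mem h.2),
      ?_, ?_, ?_, ?_⟩
    · exact (h : S ≃ₜ S).continuous.comp
        (F2.comp (continuous_fst.prodMk ((h : S ≃ₜ S).symm.continuous.comp continuous_snd)))
    · exact (h : S ≃ₜ S).continuous.comp
        (F3.comp (continuous_fst.prodMk ((h : S ≃ₜ S).symm.continuous.comp continuous_snd)))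
    · show (h : S ≃ₜ S) * F 0 * (h : S ≃ₜ S)⁻¹ = 1
      rw [F4, mul_one, mul_inv_cancel]
    · show (h : S ≃ₜ S) * F 1 * (h : S ≃ₜ S)⁻¹ = _
      rw [F5]
      rfl

/-- The mapping class group of `S` relative to `B`. -/
abbrev MCG (S : Type) [TopologicalSpace S] (B : Set S) : Type := HomeoRel S B ⧸ Iso0 S B

/-- An embedded closed annulus `S^1 × [0,1] → S` disjoint from `B`. -/
structure Annulus (S : Type) [TopologicalSpace S] (B : Set S) where
  /-- the embedding -/
  map : AddCircle (1 : ℝ) × unitInterval → S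
  /-- it is an embedding -/
  emb : IsEmbedding map
  /-- its image is disjoint from `B` -/
  notB : ∀ p, map p ∉ B

/-- The image of an annulus under a homeomorphism. -/
def Annulus.move (f : HomeoRel S B) (a : Annulus S B) : Annulus S B where
  map := fun p => (f : S ≃ₜ S) (a.map p)
  emb := (f : S ≃ₜ S).isEmbedding.comp a.emb
  notB := by
    intro p hp
    apply a.notB p
    have h1 := f.2 _ hp
    rwa [← (f : S ≃ₜ S).injective h1]

/-- The core curve of an annulus. -/
def Annulus.core (a : Annulus S B) : Set S :=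
  {x | ∃ θ : AddCircle (1 : ℝ), ∃ t : unitInterval, (t : ℝ) = 1 / 2 ∧ a.map (θ, t) = x}

/-- `h` is the Dehn twist `(θ, t) ↦ (θ + t, t)` along the annulus `a`. -/
def IsTwist (a : Annulus S B) (h : S ≃ₜ S) : Prop :=
  (∀ (θ : AddCircle (1 : ℝ)) (t : unitInterval),
    h (a.map (θ, t)) = a.map (θ + (((t : ℝ)) : AddCircle (1 : ℝ)), t)) ∧
  ∀ x, x ∉ Set.range a.map → h x = x

/-- The mapping class `m` is the class of the Dehn twist along the annulus `a`. -/
def IsTwistClass (a : Annulus S B) (m : MCG S B) : Prop :=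
  ∃ h : HomeoRel S B, IsTwist a (h : S ≃ₜ S) ∧ (h : MCG S B) = m

/-- The core curves of `a` and `b` are isotopic, or can be isotoped to meet in at most `k`
points. -/
def Near (k : ℕ) (a b : Annulus S B) : Prop :=
  ∃ h : S ≃ₜ S, IsotopicToId B h ∧
    (h '' a.core = b.core ∨ ((h '' a.core) ∩ b.core).encard ≤ k)

/-- `w` is a sequence of Dehn twists along annuli in `A` whose core curves are pairwise isotopic or
can be isotoped to meet in at most `k` points. -/
def Restricted (A : Set (Annulus S B)) (k : ℕ) (w : List (MCG S B)) : Prop :=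
  ∃ l : List (Annulus S B), (∀ a ∈ l, a ∈ A) ∧ (∀ a ∈ l, ∀ b ∈ l, Near k a b) ∧
    List.Forall₂ IsTwistClass l w

theorem isTwist_move (f : HomeoRel S B) (a : Annulus S B) (h : S ≃ₜ S) (H : IsTwist a h) :
    IsTwist (a.move f) ((f : S ≃ₜ S) * h * (f : S ≃ₜ S)⁻¹) := by
  refine ⟨fun θ t => ?_, fun x hx => ?_⟩
  · show (f : S ≃ₜ S) (h ((f : S ≃ₜ S).symm ((f : S ≃ₜ S) (a.map (θ, t))))) = _
    rw [Homeomorph.symm_apply_apply, H.1]
    rfl
  · show (f : S ≃ₜ S) (h ((f : S ≃ₜ S).symm x)) = x
    have h1 : (f : S ≃ₜ S).symm x ∉ Set.range a.map := by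
      rintro ⟨p, hp⟩
      exact hx ⟨p, by
        show (f : S ≃ₜ S) (a.map p) = x
        rw [hp, Homeomorph.apply_symm_apply]⟩
    rw [H.2 _ h1, Homeomorph.apply_symm_apply]

theorem exists_annulus {l : List (Annulus S B)} {w : List (MCG S B)}
    (h : List.Forall₂ IsTwistClass l w) : ∀ s ∈ w, ∃ a ∈ l, IsTwistClass a s := by
  induction h with
  | nil => intro s hs; exact absurd hs List.not_mem_nil
  | @cons a t l w h1 h2 ih =>
    intro s hs
    rcases List.mem_cons.1 hs with rfl | hs'
    · exact ⟨a, List.mem_cons_self, h1⟩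
    · obtain ⟨b, hb, hb'⟩ := ih s hs'
      exact ⟨b, List.mem_cons_of_mem _ hb, hb'⟩

/-- Let `A` be a set of annuli (for an oriented surface: the orientation preserving embeddings
whose core does not bound a disk) stable under the homeomorphisms of `S` fixing `B`. Suppose that
no nonempty product of Dehn twists along annuli in `A` is isotopic to the identity (Smith).
Then every mapping class `z` has only finitely many factorizations into Dehn twists along annuli in
`A` whose classes belong to a given finite set. Suppose moreover that up to homeomorphism there are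
finitely many systems of annuli in `A` whose cores pairwise are isotopic or can be isotoped to meet
in at most `k` points (Juvan, Malnič, Mohar). Then, for every central mapping class `z` (for
instance the boundary twist), up to simultaneous conjugation there are finitely many factorizations
of `z` into Dehn twists along such systems; in particular their lengths are bounded. -/
theorem result (A : Set (Annulus S B))
    (hA : ∀ (f : HomeoRel S B), ∀ a ∈ A, a.move f ∈ A)
    (smith : ∀ (l : List (Annulus S B)) (w : List (MCG S B)), l ≠ [] → (∀ a ∈ l, a ∈ A) →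
      List.Forall₂ IsTwistClass l w → w.prod ≠ 1) :
    (∀ Φ : Set (MCG S B), Φ.Finite → ∀ z : MCG S B,
      {w : List (MCG S B) | (∀ t ∈ w, t ∈ Φ ∧ ∃ a ∈ A, IsTwistClass a t) ∧ w.prod = z}.Finite) ∧
    ∀ k : ℕ, (∃ Φ : Set (MCG S B), Φ.Finite ∧ ∀ l : List (Annulus S B), (∀ a ∈ l, a ∈ A) →
        (∀ a ∈ l, ∀ b ∈ l, Near k a b) →
        ∃ f : MCG S B, ∀ a ∈ l, ∀ t, IsTwistClass a t → f * t * f⁻¹ ∈ Φ) →
      ∀ z : MCG S B, (∀ f : MCG S B, f * z = z * f) →
        (∃ W : Set (List (MCG S B)), W.Finite ∧ ∀ w : List (MCG S B), Restricted A k w →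
          w.prod = z → ∃ f : MCG S B, w.map (fun t => f * t * f⁻¹) ∈ W) ∧
        ∃ N : ℕ, ∀ w : List (MCG S B), Restricted A k w → w.prod = z → w.length ≤ N := by
  let P : MCG S B → Prop := fun t => ∃ a ∈ A, IsTwistClass a t
  have hP : ∀ f t, P t → P (f * t * f⁻¹) := by
    rintro f t ⟨a, ha, h, hh, rfl⟩
    obtain ⟨f, rfl⟩ := QuotientGroup.mk_surjective f
    exact ⟨a.move f, hA f a ha, f * h * f⁻¹, isTwist_move f a h hh, rfl⟩
  have hpos : ∀ u : List (MCG S B), u ≠ [] → (∀ t ∈ u, P t) → u.prod ≠ 1 := by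
    intro u hu hP'
    have : ∃ l : List (Annulus S B), (∀ a ∈ l, a ∈ A) ∧ List.Forall₂ IsTwistClass l u := by
      clear hu
      induction u with
      | nil => exact ⟨[], by simp, List.Forall₂.nil⟩
      | cons t u ih =>
        obtain ⟨l, h1, h2⟩ := ih fun s hs => hP' s (List.mem_cons_of_mem _ hs)
        obtain ⟨a, ha, hat⟩ := hP' t List.mem_cons_self
        refine ⟨a :: l, ?_, List.Forall₂.cons hat h2⟩
        intro b hb
        rcases List.mem_cons.1 hb with rfl | hb
        · exact ha
        · exact h1 b hb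
    obtain ⟨l, h1, h2⟩ := this
    refine smith l u ?_ h1 h2
    rintro rfl
    cases h2
    exact hu rfl
  refine ⟨fun Φ hΦ z => Pool.Agent.TH240.Hig.finite_words P hP hpos Φ hΦ z, ?_⟩
  rintro k ⟨Φ, hΦ, hsys⟩ z hz
  have hfin := Pool.Agent.TH240.Hig.finite_words P hP hpos Φ hΦ z
  have key : ∀ w : List (MCG S B), Restricted A k w → w.prod = z →
      ∃ f : MCG S B, w.map (fun t => f * t * f⁻¹) ∈
        {w : List (MCG S B) | (∀ t ∈ w, t ∈ Φ ∧ P t) ∧ w.prod = z} := by
    rintro w ⟨l, hl, hn, hlw⟩ hw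
    obtain ⟨f, hf⟩ := hsys l hl hn
    refine ⟨f, fun t ht => ?_, ?_⟩
    · obtain ⟨s, hs, rfl⟩ := List.mem_map.1 ht
      obtain ⟨a, ha, hat⟩ := exists_annulus hlw s hs
      exact ⟨hf a ha s hat, hP f s ⟨a, hl a ha, hat⟩⟩
    · have e := map_list_prod (MulAut.conj f) w
      simp only [MulAut.conj_apply] at e
      have e2 : (w.map fun t => f * t * f⁻¹).prod = f * w.prod * f⁻¹ := by
        rw [e]
        rfl
      rw [e2, hw, hz f, mul_inv_cancel_right]
  refine ⟨⟨_, hfin, key⟩, ?_⟩
  obtain ⟨N, hN⟩ := (hfin.image List.length).bddAbove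
  refine ⟨N, fun w h1 h2 => ?_⟩
  obtain ⟨f, hf⟩ := key w h1 h2
  have := hN ⟨_, hf, rfl⟩
  simpa using this

end Pool.Agent.Results.MP_294da1_gt.FinitelyManyFactorizations
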